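import Pool.Agent.X59.OS.Cone

/-!
# Turán's `(3,4)`-conjecture without large cones over books

A book with `t` pages is the graph that consists of `t` triangles with a common edge `xy`; the cone
over it is the 3-graph on `t + 3` vertices whose edges are the triples `v p q` with `pq` an edge of
the book. Turán's conjecture says that a `K_4^3`-free 3-graph on `n` vertices has at most
`(5/9 + o(1)) C(n,3)` edges. It is proved here, together with stability, for the `K_4^3`-free 3-graphs
with `o(n^(t+3))` induced cones over books with `t` pages, for every fixed `t`. Turán's construction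
has no induced cone over a book with two or more pages. So a `K_4^3`-free 3-graph with edge density
more than `5/9` (if there is any) contains a positive proportion of induced cones over books with `t`
pages, for every `t`.

Outline: the library has sum of squares certificates which bound the distance to Turán's construction
by the number of missing edges and the number of induced copies of two 3-graphs on six vertices. If
one of them, `X`, has positive density, then there are large blow-ups of `X` in which the six parts
are independent and each triple with two vertices in a part `i` and one in another part `j` depends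
only on `(i, j)`. Decision trees over the 30 bits `(i, j)`, checked by the kernel, show that each such
blow-up contains four vertices with four edges or a large induced cone over a book.
-/

set_option autoImplicit false
set_option maxRecDepth 100000
set_option maxHeartbeats 4000000
open Finset
open scoped Classical

namespace Pool.Agent.Results.MP_a4d830_co.ConesOverBooks

/-- The 3-graph `H` has no four vertices spanning all four triples. -/
def K43Free {n : ℕ} (H : Finset (Finset (Fin n))) : Prop :=
  ∀ S : Finset (Fin n), S.card = 4 → ∃ s ⊆ S, s.card = 3 ∧ s ∉ H

/-- The set `S` spans in `H` the cone, with apex `v`, over the book whose pages have the common edge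
`xy`: a triple of vertices of `S` is an edge of `H` if and only if it contains `v` and at least one
of `x`, `y` (so the link of `v` in `S` is the graph of all pairs that meet `{x, y}`). -/
def IsCone {n : ℕ} (H : Finset (Finset (Fin n))) (S : Finset (Fin n)) : Prop :=
  ∃ v ∈ S, ∃ x ∈ S, ∃ y ∈ S, v ≠ x ∧ v ≠ y ∧ x ≠ y ∧
    ∀ e ⊆ S, e.card = 3 → (e ∈ H ↔ v ∈ e ∧ (x ∈ e ∨ y ∈ e))

/-- The number of sets of `t + 3` vertices that span a cone over a book (with `t` pages). -/
noncomputable def cones {n : ℕ} (H : Finset (Finset (Fin n))) (t : ℕ) : ℕ :=
  (((univ : Finset (Fin n)).powersetCard (t + 3)).filter (IsCone H)).card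

/-- Turán's construction for the division of the vertices into the parts `g = 0`, `g = 1`, `g = 2`:
the triples that meet all three parts, and the triples with two vertices in one part and one vertex
in the following part, where part 0 follows part 2. -/
def turan {n : ℕ} (g : Fin n → Fin 3) : Finset (Finset (Fin n)) :=
  ((univ : Finset (Fin n)).powersetCard 3).filter fun t =>
    (∀ p, ∃ i ∈ t, g i = p) ∨
      ∃ p, (t.filter fun i => g i = p).card = 2 ∧ (t.filter fun i => g i = p + 1).card = 1

/-- For every `t ≥ 1` and `ε > 0` there are `δ > 0` and `n0` such that every `K_4^3`-free 3-graph `H`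
on `n ≥ n0` vertices, in which at most `δ n^(t+3)` sets of `t + 3` vertices span a cone over a book,
has at most `(5/9 + ε) C(n,3)` edges, and `|H ∆ turan g| ≤ 1161216000 ((5/54) n³ - |H|) + ε n³` for
some division `g` of the vertices. Turán's construction is `K_4^3`-free and contains no such set for
`t ≥ 2`. -/
theorem result :
    (∀ t : ℕ, 1 ≤ t → ∀ ε : ℝ, 0 < ε → ∃ δ : ℝ, 0 < δ ∧ ∃ n0 : ℕ, ∀ n, n0 ≤ n →
      ∀ H : Finset (Finset (Fin n)), (∀ e ∈ H, e.card = 3) → K43Free H →
      (cones H t : ℝ) ≤ δ * (n : ℝ) ^ (t + 3) →
        (H.card : ℝ) ≤ (5 / 9 + ε) * (n.choose 3 : ℝ) ∧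
        ∃ g : Fin n → Fin 3, ((symmDiff H (turan g)).card : ℝ) ≤
          1161216000 * (5 / 54 * (n : ℝ) ^ 3 - H.card) + ε * (n : ℝ) ^ 3) ∧
    ∀ (n : ℕ) (g : Fin n → Fin 3), K43Free (turan g) ∧ ∀ t : ℕ, 2 ≤ t → cones (turan g) t = 0 := by
  refine ⟨fun t ht ε hε => Pool.Agent.X59.OS.cone_main (by omega) hε, fun n g =>
    ⟨Pool.Agent.TH773.ST.turan_free g, fun t ht => ?_⟩⟩
  unfold cones
  rw [card_eq_zero, filter_eq_empty_iff]
  intro S hS
  have h1 := (mem_powersetCard.mp hS).2
  exact Pool.Agent.X59.OS.cone_turan g (by omega)

end Pool.Agent.Results.MP_a4d830_co.ConesOverBooks
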