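import Pool.Agent.X59.OS.Two
import Pool.Agent.X59.OS.TrA

/-!
# `K_5^3`-free 3-graphs without large books, and order-size pairs: density `3/4`

A book with `t` pages is the 3-graph with `t + 2` vertices and the `t` triples that contain two given
vertices. Turán's conjecture `π(K_5^3) = 3/4` is proved here for the `K_5^3`-free 3-graphs with
`o(n^(t+2))` induced books with `t` pages, for every fixed `t`, and hence for those with `o(n^k)` sets
of `k` vertices that span exactly `k - 2` edges, for every fixed `k`. The same is proved for eight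
further pairs `(k, m)`: almost no `k` vertices span exactly `m` edges. The complete bipartite 3-graph
has no induced book with two or more pages and no `k` vertices spanning exactly `m` edges for these
pairs. So a `K_5^3`-free 3-graph with edge density more than `3/4` (if there is any) contains a
positive proportion of induced books with `t` pages, for every `t`.

Outline: the library has a sum of squares certificate which bounds the number of edges of a
`K_5^3`-free 3-graph by `n³/8` and the number of induced copies of three 3-graphs on six vertices. If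
one of them, `X`, has positive density, then there are large blow-ups of `X` in which the six parts
are independent and each triple with two vertices in a part `i` and one in another part `j` depends
only on `(i, j)`. Decision trees over the 30 bits `(i, j)`, checked by the kernel, show that each such
blow-up contains five vertices with ten edges or a large induced book (or `k` vertices spanning `m`
edges).
-/

set_option autoImplicit false
set_option maxRecDepth 100000
set_option maxHeartbeats 4000000
open Finset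
open scoped Classical

namespace Pool.Agent.Results.MP_a4d830_co.FiveCliqueBooks

/-- The 3-graph `H` has no five vertices spanning all ten triples. -/
def K53Free {n : ℕ} (H : Finset (Finset (Fin n))) : Prop :=
  ∀ S : Finset (Fin n), S.card = 5 → ∃ s ⊆ S, s.card = 3 ∧ s ∉ H

/-- The set `S` of vertices spans a book in `H`: there are two vertices `x`, `y` in `S` such that a
triple of vertices of `S` is an edge of `H` if and only if it contains both `x` and `y`. -/
def IsBook {n : ℕ} (H : Finset (Finset (Fin n))) (S : Finset (Fin n)) : Prop :=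
  ∃ x ∈ S, ∃ y ∈ S, x ≠ y ∧ ∀ e ⊆ S, e.card = 3 → (e ∈ H ↔ x ∈ e ∧ y ∈ e)

/-- The number of sets of `t + 2` vertices that span a book (with `t` pages). -/
noncomputable def books {n : ℕ} (H : Finset (Finset (Fin n))) (t : ℕ) : ℕ :=
  (((univ : Finset (Fin n)).powersetCard (t + 2)).filter (IsBook H)).card

/-- The number of sets of `k` vertices that contain exactly `m` edges of `H`. -/
def spans {n : ℕ} (H : Finset (Finset (Fin n))) (k m : ℕ) : ℕ :=
  (((univ : Finset (Fin n)).powersetCard k).filter fun S =>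
    (H.filter fun e => e ⊆ S).card = m).card

/-- Turán's construction: the triples that meet both `A` and its complement. -/
noncomputable def twoClass {n : ℕ} (A : Finset (Fin n)) : Finset (Finset (Fin n)) :=
  univ.filter fun e => e.card = 3 ∧ ¬ e ⊆ A ∧ ¬ e ⊆ Aᶜ

/-- Eight pairs. -/
def more : List (ℕ × ℕ) := [(5, 8), (6, 12), (7, 12), (7, 20), (8, 15), (8, 30), (9, 40), (9, 42)]

/-- The pairs `(k, k - 2)` with `k ≥ 4` and the eight pairs. -/
def Pair (k m : ℕ) : Prop := (4 ≤ k ∧ m + 2 = k) ∨ (k, m) ∈ more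

theorem more_tab : ∀ p ∈ more, ∀ a ∈ List.range 10, a ≤ p.1 →
    2 * p.2 + 2 * a * (p.1 - a) ≠ a * (p.1 - a) * p.1 := by decide +kernel

theorem more_le : ∀ p ∈ more, p.1 ≤ 9 := by decide

theorem pair_two {k m : ℕ} (h : Pair k m) (a : ℕ) (ha : a ≤ k) :
    2 * m + 2 * a * (k - a) ≠ a * (k - a) * k := by
  rcases h with ⟨h4, h⟩ | h
  · subst h
    intro e
    obtain ⟨b, hb⟩ : ∃ b, b = m + 2 - a := ⟨_, rfl⟩
    rw [← hb] at e
    have hab : a + b = m + 2 := by omega
    rw [← hab] at e
    have h1 : (2 : ℤ) * m + 2 * a * b = a * b * (a + b) := by exact_mod_cast e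
    have h2 : (a : ℤ) + b = m + 2 := by exact_mod_cast hab
    have h3 : (a * b - 2 : ℤ) * m = 0 := by
      have : (m : ℤ) = a + b - 2 := by linarith
      rw [this] at h1 ⊢
      nlinarith
    have hm : (m : ℤ) ≠ 0 := by
      have : 2 ≤ m := by omega
      intro h; omega
    have h4' : (a * b : ℤ) = 2 := by
      rcases mul_eq_zero.mp h3 with h5 | h5
      · linarith
      · exact absurd h5 hm
    have h5 : a * b = 2 := by exact_mod_cast h4'
    have ha2 : a ≤ 2 := Nat.le_of_dvd (by norm_num) ⟨b, h5.symm⟩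
    interval_cases a
    · omega
    · omega
    · omega
  · have := more_le _ h
    exact more_tab _ h a (List.mem_range.mpr (by simp only at this; omega)) ha

/-- (1) For every `t ≥ 1` and every `ε > 0` there are `δ > 0` and `n0` such that every `K_5^3`-free
3-graph `H` on `n ≥ n0` vertices, in which at most `δ n^(t+2)` sets of vertices span a book with `t`
pages, has at most `(3/4 + ε) C(n,3)` edges. (2) The same holds if at most `δ n^k` sets of `k`
vertices span exactly `m` edges, where `m = k - 2`, `k ≥ 4`, or `(k, m)` is one of eight other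
pairs. (3) Turán's construction is `K_5^3`-free, it has no induced book with two or more pages, and
no `k` of its vertices span exactly `m` edges for these pairs; for a suitable division of the
vertices it has at least `(3/4) C(n,3)` edges. -/
theorem result :
    (∀ t : ℕ, 1 ≤ t → ∀ ε : ℝ, 0 < ε → ∃ δ : ℝ, 0 < δ ∧ ∃ n0 : ℕ, ∀ n, n0 ≤ n →
      ∀ H : Finset (Finset (Fin n)), (∀ e ∈ H, e.card = 3) → K53Free H →
      (books H t : ℝ) ≤ δ * (n : ℝ) ^ (t + 2) →
      (H.card : ℝ) ≤ (3 / 4 + ε) * (n.choose 3 : ℝ)) ∧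
    (∀ k m : ℕ, Pair k m → ∀ ε : ℝ, 0 < ε → ∃ δ : ℝ, 0 < δ ∧ ∃ n0 : ℕ, ∀ n, n0 ≤ n →
      ∀ H : Finset (Finset (Fin n)), (∀ e ∈ H, e.card = 3) → K53Free H →
      (spans H k m : ℝ) ≤ δ * (n : ℝ) ^ k →
      (H.card : ℝ) ≤ (3 / 4 + ε) * (n.choose 3 : ℝ)) ∧
    (∀ (n : ℕ) (A : Finset (Fin n)), K53Free (twoClass A) ∧
      (∀ t : ℕ, 2 ≤ t → books (twoClass A) t = 0) ∧
      ∀ k m : ℕ, Pair k m → spans (twoClass A) k m = 0) ∧
    ∀ n : ℕ, ∃ A : Finset (Fin n), 3 * n.choose 3 ≤ 4 * (twoClass A).card := by
  have hb : ∀ t : ℕ, 1 ≤ t → ∀ ε : ℝ, 0 < ε → ∃ δ : ℝ, 0 < δ ∧ ∃ n0 : ℕ, ∀ n, n0 ≤ n →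
      ∀ H : Finset (Finset (Fin n)), (∀ e ∈ H, e.card = 3) → K53Free H →
      (books H t : ℝ) ≤ δ * (n : ℝ) ^ (t + 2) →
      (H.card : ℝ) ≤ (3 / 4 + ε) * (n.choose 3 : ℝ) :=
    fun t ht ε hε => Pool.Agent.X59.OS.book_main (by omega) hε
  refine ⟨hb, ?_, ?_, Pool.Agent.X59.OS.twoClass_card⟩
  · rintro k m (⟨h4, h⟩ | h) ε hε
    · obtain ⟨δ, hδ, n0, h1⟩ := hb m (by omega) ε hε
      subst h
      refine ⟨δ, hδ, n0, fun n hn H h3 hK hs => h1 n hn H h3 hK (le_trans ?_ hs)⟩
      exact_mod_cast Pool.Agent.X59.OS.books_le h3 m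
    · simp only [more, List.mem_cons, List.not_mem_nil, or_false, Prod.mk.injEq] at h
      rcases h with ⟨rfl, rfl⟩ | ⟨rfl, rfl⟩ | ⟨rfl, rfl⟩ | ⟨rfl, rfl⟩ | ⟨rfl, rfl⟩ | ⟨rfl, rfl⟩ |
        ⟨rfl, rfl⟩ | ⟨rfl, rfl⟩
      · exact Pool.Agent.X59.OS.pair_main (by norm_num) Pool.Agent.X59.OS.ok5_8 hε
      · exact Pool.Agent.X59.OS.pair_main (by norm_num) Pool.Agent.X59.OS.ok6_12 hε
      · exact Pool.Agent.X59.OS.pair_main (by norm_num) Pool.Agent.X59.OS.ok7_12 hε
      · exact Pool.Agent.X59.OS.pair_main (by norm_num) Pool.Agent.X59.OS.ok7_20 hε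
      · exact Pool.Agent.X59.OS.pair_main (by norm_num) Pool.Agent.X59.OS.ok8_15 hε
      · exact Pool.Agent.X59.OS.pair_main (by norm_num) Pool.Agent.X59.OS.ok8_30 hε
      · exact Pool.Agent.X59.OS.pair_main (by norm_num) Pool.Agent.X59.OS.ok9_40 hε
      · exact Pool.Agent.X59.OS.pair_main (by norm_num) Pool.Agent.X59.OS.ok9_42 hε
  · intro n A
    refine ⟨Pool.Agent.X59.OS.twoClass_free A, ?_, fun k m h =>
      Pool.Agent.X59.OS.two_spans A (pair_two h)⟩
    intro t ht
    have h1 : books (twoClass A) t ≤ spans (twoClass A) (t + 2) t :=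
      Pool.Agent.X59.OS.books_le (H := Pool.Agent.X59.OS.twoClass A)
        (fun e he => (mem_filter.mp he).2.1) t
    have h2 : spans (twoClass A) (t + 2) t = 0 :=
      Pool.Agent.X59.OS.two_spans A (pair_two (Or.inl ⟨by omega, rfl⟩))
    omega

end Pool.Agent.Results.MP_a4d830_co.FiveCliqueBooks
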