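import Pool.Agent.X59.OC.Main
import Pool.Agent.X59.OC.Att

/-!
# Turán's number, exactly, for all odd cliques, in the presence of a partition into `k` classes with
small codegrees inside the classes

Turán's conjecture for the complete 3-graphs of odd order says that a 3-graph on `n` vertices without
a complete 3-graph on `2k + 1` vertices has at most `(1 - 1/k² + o(1)) C(n,3)` edges. Turán's
construction consists of the triples which are not contained in a class of a partition of the `n`
vertices into `k` classes of nearly equal sizes; let `t_k(n)` be its number of edges. The bound
`t_k(n)` is proved here, exactly and with a linear stability term, for all `k ≥ 2`, `n ≥ 100 k²` and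
all 3-graphs whose vertices can be divided into `k` classes (of any sizes) such that any two vertices
of the same class form an edge with at most a proportion `1 / (12 k)` of the vertices of this class.
Nothing is assumed on the triples that meet several classes.

Outline. Let `T` be the family of all triples not inside a class. Given an edge `xyz` inside the
class `i`, choose two vertices in each of the other classes. Among the `2k + 1` vertices there is a
missing triple, and it is not inside a class. Since the missing triple does not contain all of `x`,
`y`, `z`, the codegree condition bounds its mean over the edges `xyz`: the number of edges inside the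
classes is at most 0.69 times the number of missing triples of `T`, if the classes have nearly equal
sizes. If they do not, `T` has so few triples that a trivial bound is enough.
-/

set_option autoImplicit false
open Finset
open scoped Classical

namespace Pool.Agent.Results.MP_a4d830_co.OddCliquePartition

/-- No `m` vertices of the 3-graph `H` span all their triples. -/
def CliqueFree {n : ℕ} (m : ℕ) (H : Finset (Finset (Fin n))) : Prop :=
  ∀ S : Finset (Fin n), S.card = m → ∃ s ⊆ S, s.card = 3 ∧ s ∉ H

/-- Turán's construction for the division of the vertices into the classes `c = 0`, ..., `c = k - 1`:
the triples of vertices which do not lie in one class. -/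
noncomputable def turan {n k : ℕ} (c : Fin n → Fin k) : Finset (Finset (Fin n)) :=
  ((univ : Finset (Fin n)).powersetCard 3).filter fun t => ¬ ∃ j, ∀ x ∈ t, c x = j

/-- The number of triples inside the classes when `n` vertices are divided into `k` classes as evenly
as possible: `n mod k` classes have `⌊n/k⌋ + 1` vertices, the others have `⌊n/k⌋`. So Turán's number
is `t_k(n) = C(n,3) - balanced n k`. -/
def balanced (n k : ℕ) : ℕ :=
  (n % k) * (n / k + 1).choose 3 + (k - n % k) * (n / k).choose 3

/-- (1) Let `k ≥ 2`, `n ≥ 100 k²`, let `H` be a 3-graph on `n` vertices without a complete 3-graph on
`2k + 1` vertices, and let the vertices be divided into `k` classes (by `c`) such that any two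
vertices `x`, `y` of the same class form an edge of `H` with at most `1 / (12 k)` of the vertices of
this class. Then `|H| + |H ∆ T| / 6 ≤ C(n,3) - balanced n k = t_k(n)`, where `T = turan c`.
(2) The bound `t_k(n)` is attained, for all `k ≥ 1` and `n`, by Turán's construction, which is free
of complete 3-graphs on `2k + 1` vertices. -/
theorem result :
    (∀ (k n : ℕ), 2 ≤ k → 100 * k ^ 2 ≤ n → ∀ H : Finset (Finset (Fin n)),
      (∀ s ∈ H, s.card = 3) → CliqueFree (2 * k + 1) H → ∀ c : Fin n → Fin k,
      (∀ x y : Fin n, x ≠ y → c x = c y →
        12 * k * (univ.filter fun z => c z = c x ∧ {x, y, z} ∈ H).card ≤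
          (univ.filter fun z => c z = c x).card) →
      6 * H.card + ((H \ turan c).card + (turan c \ H).card) + 6 * balanced n k ≤
        6 * n.choose 3) ∧
    (∀ (k n : ℕ), 1 ≤ k → ∃ c : Fin n → Fin k, CliqueFree (2 * k + 1) (turan c) ∧
      (turan c).card + balanced n k = n.choose 3) := by
  refine ⟨fun k n hk hn H h3 hF c hc => ?_, fun k n hk => ?_⟩
  · have h := Pool.Agent.X59.OC.main (c := c) hk hn hF h3 hc
    exact_mod_cast h
  · exact Pool.Agent.X59.OC.attained k n hk

end Pool.Agent.Results.MP_a4d830_co.OddCliquePartition
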