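import Pool.Agent.H121R2.TuranMain
import Pool.Agent.H688R3.TuranGenLimit

/-!
# One exact Turán density decides smaller ones

Notation: `ex n k m = ex(n, K_m^k)`, the largest number of edges of a `k`-graph on `Fin n` without
an `m`-set all of whose `k`-subsets are edges, and `turanDensity k m = π(K_m^k)`, the limit of
`ex n k m / C(n, k)` (definitions in `Pool.Agent.H120R2.CliqueDefs`).

Disjoint unions of constructions make `(1 - π(K_{p+1}^k))^(-1/(k-1))` superadditive in `p`.  This is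
used to show that exact values propagate downwards and that failures propagate upwards and become
failures by a constant factor.
-/

set_option autoImplicit false

open Filter Topology Finset

namespace Pool.Agent.Results.MP_a4d830_co.OneValueDecides

open Pool.Agent.H120R2.Clique Pool.Agent.H688R3.TuranGen

theorem ex3_le (m n : ℕ) : Pool.Agent.H121R2.Turan.ex3 m n ≤ ex n 3 m := by
  unfold Pool.Agent.H121R2.Turan.ex3
  by_cases hne : {k : ℕ | ∃ H : Finset (Finset (Fin n)),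
    (∀ e ∈ H, e.card = 3) ∧
    (∀ S : Finset (Fin n), S.card = m → ¬ (S.powersetCard 3 ⊆ H)) ∧
    H.card = k}.Nonempty
  · refine csSup_le hne ?_
    rintro k ⟨H, h1, h2, rfl⟩
    exact le_ex h1 (fun ⟨A, hA, hAH⟩ => h2 A hA hAH)
  · rw [Set.not_nonempty_iff_eq_empty] at hne
    rw [hne]
    simp

theorem le_ex3 (m n : ℕ) (hm : 3 ≤ m) : ex n 3 m ≤ Pool.Agent.H121R2.Turan.ex3 m n := by
  classical
  unfold Pool.Agent.H121R2.Turan.ex3
  apply le_csSup
  · refine ⟨n.choose 3, ?_⟩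
    rintro k ⟨H, h1, h2, rfl⟩
    have : H ⊆ (univ : Finset (Fin n)).powersetCard 3 := fun e he =>
      mem_powersetCard.2 ⟨subset_univ _, h1 e he⟩
    have h3 := card_le_card this
    rwa [card_powersetCard, card_univ, Fintype.card_fin] at h3
  · obtain ⟨G, hG, hGc⟩ := exists_mem_eq_sup
      ((((univ : Finset (Fin n)).powersetCard 3).powerset).filter (fun G => ¬ HasClique G 3 m))
      ⟨∅, by
        rw [mem_filter, mem_powerset]
        refine ⟨empty_subset _, ?_⟩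
        rintro ⟨A, hA, hAH⟩
        have : (A.powersetCard 3).card = 0 := by
          rw [subset_empty.1 hAH]; rfl
        rw [card_powersetCard, hA] at this
        have h5 := Nat.choose_pos hm
        omega⟩ Finset.card
    rw [mem_filter, mem_powerset] at hG
    refine ⟨G, fun e he => (mem_powersetCard.1 (hG.1 he)).2, fun S hS hSG => hG.2 ⟨S, hS, hSG⟩, ?_⟩
    unfold ex
    rw [← hGc]

theorem t3_eq {m : ℕ} (hm : 3 ≤ m) : t 3 m = Pool.Agent.H121R2.Turan.d m := by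
  have h1 := ratio_tendsto 3 m
  have h2 := Pool.Agent.H121R2.Turan.tendsto_ex3 hm
  have h3 : (fun n : ℕ => (ex n 3 m : ℝ) / (n.choose 3 : ℝ)) =
      fun n : ℕ => (Pool.Agent.H121R2.Turan.ex3 m n : ℝ) / (n.choose 3 : ℝ) := by
    funext n
    rw [le_antisymm (le_ex3 m n hm) (ex3_le m n)]
  rw [h3] at h1
  have := tendsto_nhds_unique h1 h2
  unfold t
  linarith

section

variable {s : ℕ}

lemma S_self (s : ℕ) : S s s = 1 := by
  unfold S
  rw [t_self, Real.one_rpow]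

/-- equality of multiples in terms of `S` -/
lemma mult_iff (hs : 2 ≤ s) {d N : ℕ} (hd : s ≤ d) (hN : 1 ≤ N) :
    t (s + 1) (N * d + 1) = t (s + 1) (d + 1) / (N : ℝ) ^ s ↔ S s (N * d) = N * S s d := by
  have hNd : s ≤ N * d := by nlinarith
  have h1 := S_pow hs hd
  have h2 := S_pow hs hNd
  have p1 := S_pos hs hd
  have p2 := S_pos hs hNd
  have q1 := t_pos (r := s + 1) (m := d + 1) (by omega) (by omega)
  have q2 := t_pos (r := s + 1) (m := N * d + 1) (by omega) (by omega)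
  have hN0 : (0 : ℝ) < N := by exact_mod_cast hN
  constructor
  · intro h
    have h3 : (S s (N * d)) ^ s * (t (s + 1) (d + 1)) = (N * S s d) ^ s * t (s + 1) (d + 1) := by
      rw [h] at h2
      rw [mul_pow, mul_assoc, h1, mul_one]
      have : (N : ℝ) ^ s ≠ 0 := by positivity
      field_simp at h2
      linarith
    have h4 := mul_right_cancel₀ q1.ne' h3
    exact (pow_left_inj₀ p2.le (by positivity) (by omega)).1 h4
  · intro h
    rw [h, mul_pow] at h2
    have h5 : (S s d) ^ s ≠ 0 := by positivity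
    have h6 : (N : ℝ) ^ s ≠ 0 := by positivity
    have h7 : (S s d) ^ s * (t (s + 1) (N * d + 1) * (N : ℝ) ^ s) =
        (S s d) ^ s * t (s + 1) (d + 1) := by
      rw [h1, ← h2]; ring
    have h8 := mul_left_cancel₀ h5 h7
    rw [eq_div_iff h6, h8]

lemma S_mul' (hs : 2 ≤ s) {d N : ℕ} (hd : s ≤ d) (hN : 1 ≤ N) :
    (N : ℝ) * S s d ≤ S s (N * d) := by
  obtain ⟨q, rfl⟩ : ∃ q, N = q + 1 := ⟨N - 1, by omega⟩
  have := S_mul hs hd q
  push_cast
  exact this

/-- exact values go down -/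
lemma down (hs : 2 ≤ s) {d j N : ℕ} (hd : s ≤ d) (hj : 1 ≤ j) (hN : j ≤ N)
    (h : S s (N * d) = N * S s d) : S s (j * d) = j * S s d := by
  refine le_antisymm ?_ (S_mul' hs hd hj)
  rcases Nat.lt_or_eq_of_le hN with hlt | rfl
  · have h1 := S_add hs (x := j * d) (y := (N - j) * d) (by nlinarith)
      (by have : 1 ≤ N - j := by omega
          nlinarith)
    have h2 := S_mul' hs hd (N := N - j) (by omega)
    have e : j * d + (N - j) * d = N * d := by
      rw [← add_mul]; congr 1; omega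
    rw [e, h] at h1
    rw [Nat.cast_sub hN] at h2
    have : ((N : ℝ) - j) * S s d = N * S s d - j * S s d := by ring
    linarith
  · exact h.le

/-- failures go up, with a constant factor -/
lemma up (hs : 2 ≤ s) {d J : ℕ} (hd : s ≤ d) (hJ : 1 ≤ J) (h : S s (J * d) ≠ J * S s d) :
    ∃ ρ : ℝ, 1 < ρ ∧ ∃ N₀ : ℕ, ∀ N : ℕ, N₀ ≤ N → ρ * (N * S s d) ≤ S s (N * d) := by
  have hlt : (J : ℝ) * S s d < S s (J * d) := lt_of_le_of_ne (S_mul' hs hd hJ) (Ne.symm h)
  have p1 := S_pos hs hd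
  have hJ0 : (0 : ℝ) < J := by exact_mod_cast hJ
  set σ : ℝ := S s (J * d) / (J * S s d) with hσ
  have hσ1 : 1 < σ := by rw [hσ, lt_div_iff₀ (by positivity)]; linarith
  refine ⟨(1 + σ) / 2, by linarith, 3 * J, fun N hN => ?_⟩
  -- N = (q+1) J + (J + r)
  have hdiv : J * (N / J) + N % J = N := Nat.div_add_mod N J
  have hmod : N % J < J := Nat.mod_lt _ (by omega)
  have hq2 : 3 ≤ N / J := by rw [Nat.le_div_iff_mul_le (by omega)]; omega
  obtain ⟨q, hq⟩ : ∃ q, N / J = q + 1 + 1 := ⟨N / J - 2, by omega⟩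
  have hq1 : (1 : ℝ) ≤ q := by exact_mod_cast (show 1 ≤ q by omega)
  set r := N % J + J with hr
  have hNr : (q + 1) * J + r = N := by rw [hr]; rw [hq] at hdiv; nlinarith
  have hr1 : 1 ≤ r := by omega
  have a1 := S_mul hs (x := J * d) (by nlinarith) q
  have a2 := S_mul' hs hd hr1
  have a3 := S_add hs (x := (q + 1) * (J * d)) (y := r * d) (by
    have : s ≤ J * d := by nlinarith
    nlinarith) (by nlinarith)
  have e : (q + 1) * (J * d) + r * d = N * d := by rw [← hNr]; ring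
  rw [e] at a3
  have hSJ : S s (J * d) = σ * (J * S s d) := by rw [hσ]; field_simp
  rw [hSJ] at a1
  have hNc : (N : ℝ) = ((q : ℝ) + 1) * J + r := by rw [← hNr]; push_cast; ring
  have hrJ : (r : ℝ) ≤ 2 * J := by exact_mod_cast (show r ≤ 2 * J by omega)
  have b1 : (((q : ℝ) + 1) * J) * σ + r ≥ (1 + σ) / 2 * N := by
    rw [hNc]
    have h1 : (r : ℝ) ≤ ((q : ℝ) + 1) * J := by nlinarith
    nlinarith [mul_nonneg (sub_nonneg.2 h1) (sub_pos.2 hσ1).le]
  calc (1 + σ) / 2 * (N * S s d) = ((1 + σ) / 2 * N) * S s d := by ring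
    _ ≤ ((((q : ℝ) + 1) * J) * σ + r) * S s d := mul_le_mul_of_nonneg_right b1 p1.le
    _ = ((q : ℝ) + 1) * (σ * (J * S s d)) + r * S s d := by ring
    _ ≤ S s (N * d) := by linarith

/-- the form in `t` -/
lemma up_t (hs : 2 ≤ s) {d J : ℕ} (hd : s ≤ d) (hJ : 1 ≤ J)
    (h : t (s + 1) (J * d + 1) ≠ t (s + 1) (d + 1) / (J : ℝ) ^ s) :
    ∃ ρ : ℝ, 0 < ρ ∧ ρ < 1 ∧ ∃ N₀ : ℕ, ∀ N : ℕ, N₀ ≤ N →
      t (s + 1) (N * d + 1) ≤ ρ * (t (s + 1) (d + 1) / (N : ℝ) ^ s) := by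
  obtain ⟨ρ, hρ, N₀, hN₀⟩ := up hs hd hJ (fun hc => h ((mult_iff hs hd hJ).2 hc))
  have hρ0 : 0 < ρ := by linarith
  refine ⟨(ρ ^ s)⁻¹, by positivity, inv_lt_one_of_one_lt₀ (one_lt_pow₀ hρ (by omega)),
    max N₀ 1, fun N hN => ?_⟩
  have hN1 : 1 ≤ N := (le_max_right _ _).trans hN
  have h1 := hN₀ N ((le_max_left _ _).trans hN)
  have hNd : s ≤ N * d := by nlinarith
  have e1 := S_pow hs hd
  have e2 := S_pow hs hNd
  have p1 := S_pos hs hd
  have q1 := t_pos (r := s + 1) (m := d + 1) (by omega) (by omega)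
  have q2 := t_pos (r := s + 1) (m := N * d + 1) (by omega) (by omega)
  have hN0 : (0 : ℝ) < N := by exact_mod_cast hN1
  have h2 : (ρ * (N * S s d)) ^ s * t (s + 1) (N * d + 1) ≤ 1 :=
    (mul_le_mul_of_nonneg_right (pow_le_pow_left₀ (by positivity) h1 s) q2.le).trans e2.le
  rw [mul_pow, mul_pow] at h2
  have h3 : (S s d) ^ s * (ρ ^ s * (N : ℝ) ^ s * t (s + 1) (N * d + 1)) ≤
      (S s d) ^ s * t (s + 1) (d + 1) := by
    rw [e1]
    refine le_trans (le_of_eq ?_) h2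
    ring
  have h4 := le_of_mul_le_mul_left h3 (by positivity)
  rw [inv_mul_eq_div, div_div, le_div_iff₀ (by positivity)]
  calc t (s + 1) (N * d + 1) * ((N : ℝ) ^ s * ρ ^ s)
      = ρ ^ s * (N : ℝ) ^ s * t (s + 1) (N * d + 1) := by ring
    _ ≤ _ := h4

end

/-- For every `k ≥ 3`, with `π(m) = π(K_m^k)`:
(1) `(1 - π(a))^(-1/(k-1)) + (1 - π(b))^(-1/(k-1)) ≤ (1 - π(a + b - 1))^(-1/(k-1))` for `a, b ≥ k`;
(2) for `d ≥ k - 1`, if `1 - π(N d + 1) = (1 - π(d + 1)) / N^(k-1)` for one `N`, then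
`1 - π(j d + 1) = (1 - π(d + 1)) / j^(k-1)` for all `1 ≤ j ≤ N`;
(3) if it fails for one `J ≥ 1`, then there are `ρ < 1` and `N₀` with
`1 - π(N d + 1) ≤ ρ (1 - π(d + 1)) / N^(k-1)` for all `N ≥ N₀`.
For `k = 3`:
(4) if Turán's formula `π(K_m^3) = 1 - (2/(m-1))²` holds for one `m`, it holds for all
`4 ≤ j ≤ m - 2`;
(5) if it fails for one `j ≥ 4`, then it fails for all `m ≥ j + 2`, and there are `c < 4` and `M`
such that `(m - 1)² (1 - π(K_m^3)) ≤ c` for all `m ≥ M`;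
(6) it holds for all `m ≥ 4` iff `(m - 1)² (1 - π(K_m^3)) → 4`, iff it holds for arbitrarily
large `m`. -/
theorem result :
    (∀ k m : ℕ, Tendsto (fun n : ℕ => (ex n k m : ℝ) / (n.choose k : ℝ)) atTop
      (𝓝 (turanDensity k m))) ∧
    (∀ k : ℕ, 3 ≤ k →
      (∀ a b : ℕ, k ≤ a → k ≤ b →
        (1 - turanDensity k a) ^ (-(1 / ((k : ℝ) - 1))) +
            (1 - turanDensity k b) ^ (-(1 / ((k : ℝ) - 1))) ≤
          (1 - turanDensity k (a + b - 1)) ^ (-(1 / ((k : ℝ) - 1)))) ∧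
      ∀ d : ℕ, k - 1 ≤ d →
        (∀ j N : ℕ, 1 ≤ j → j ≤ N →
          1 - turanDensity k (N * d + 1) = (1 - turanDensity k (d + 1)) / (N : ℝ) ^ (k - 1) →
          1 - turanDensity k (j * d + 1) = (1 - turanDensity k (d + 1)) / (j : ℝ) ^ (k - 1)) ∧
        (∀ J : ℕ, 1 ≤ J →
          1 - turanDensity k (J * d + 1) ≠ (1 - turanDensity k (d + 1)) / (J : ℝ) ^ (k - 1) →
          ∃ ρ : ℝ, 0 < ρ ∧ ρ < 1 ∧ ∃ N₀ : ℕ, ∀ N : ℕ, N₀ ≤ N →
            1 - turanDensity k (N * d + 1) ≤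
              ρ * ((1 - turanDensity k (d + 1)) / (N : ℝ) ^ (k - 1)))) ∧
    (∀ j m : ℕ, 4 ≤ j → j + 2 ≤ m → turanDensity 3 m = 1 - (2 / ((m : ℝ) - 1)) ^ 2 →
      turanDensity 3 j = 1 - (2 / ((j : ℝ) - 1)) ^ 2) ∧
    (∀ j : ℕ, 4 ≤ j → turanDensity 3 j ≠ 1 - (2 / ((j : ℝ) - 1)) ^ 2 →
      (∀ m : ℕ, j + 2 ≤ m → turanDensity 3 m ≠ 1 - (2 / ((m : ℝ) - 1)) ^ 2) ∧
      ∃ c : ℝ, c < 4 ∧ ∃ M : ℕ, ∀ m : ℕ, M ≤ m →
        ((m : ℝ) - 1) ^ 2 * (1 - turanDensity 3 m) ≤ c) ∧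
    ((∀ m : ℕ, 4 ≤ m → turanDensity 3 m = 1 - (2 / ((m : ℝ) - 1)) ^ 2) ↔
      Tendsto (fun m : ℕ => ((m : ℝ) - 1) ^ 2 * (1 - turanDensity 3 m)) atTop (𝓝 4)) ∧
    ((∀ m : ℕ, 4 ≤ m → turanDensity 3 m = 1 - (2 / ((m : ℝ) - 1)) ^ 2) ↔
      ∃ᶠ m : ℕ in atTop, turanDensity 3 m = 1 - (2 / ((m : ℝ) - 1)) ^ 2) := by
  have tr : ∀ m : ℕ, 3 ≤ m → (turanDensity 3 m = 1 - (2 / ((m : ℝ) - 1)) ^ 2 ↔
      Pool.Agent.H121R2.Turan.d m = (2 / ((m : ℝ) - 1)) ^ 2) := by
    intro m hm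
    have h := t3_eq hm
    unfold t at h
    constructor
    · intro h1; linarith
    · intro h1; linarith
  have D : ∀ j m : ℕ, 4 ≤ j → j + 2 ≤ m → turanDensity 3 m = 1 - (2 / ((m : ℝ) - 1)) ^ 2 →
      turanDensity 3 j = 1 - (2 / ((j : ℝ) - 1)) ^ 2 := by
    intro j m hj hm h
    exact (tr j (by omega)).2
      (Pool.Agent.H121R2.Turan.descends hj hm ((tr m (by omega)).1 h))
  have F : ∀ j : ℕ, 4 ≤ j → turanDensity 3 j ≠ 1 - (2 / ((j : ℝ) - 1)) ^ 2 →
      ∃ c : ℝ, c < 4 ∧ ∃ M : ℕ, ∀ m : ℕ, M ≤ m →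
        ((m : ℝ) - 1) ^ 2 * (1 - turanDensity 3 m) ≤ c := by
    intro j hj h
    obtain ⟨c, hc, M, hM⟩ := Pool.Agent.H121R2.Turan.fails_asymptotically hj
      (fun h1 => h ((tr j (by omega)).2 h1))
    refine ⟨c, hc, max M 3, fun m hm => ?_⟩
    have h1 := hM m ((le_max_left _ _).trans hm)
    have h2 := t3_eq ((le_max_right M 3).trans hm)
    unfold t at h2
    rw [h2]
    exact h1
  refine ⟨fun k m => ratio_tendsto k m, ?_, D, fun j hj h =>
    ⟨fun m hm h1 => h (D j m hj hm h1), F j hj h⟩, ?_, ?_⟩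
  · intro k hk
    obtain ⟨s, rfl⟩ : ∃ s, k = s + 1 := ⟨k - 1, by omega⟩
    have hs : 2 ≤ s := by omega
    have ec : ((s + 1 : ℕ) : ℝ) - 1 = s := by push_cast; ring
    have es : s + 1 - 1 = s := by omega
    rw [ec, es]
    refine ⟨fun a b ha hb => ?_, fun d hd => ⟨fun j N hj hN h => ?_, fun J hJ h => ?_⟩⟩
    · have := S_add hs (x := a - 1) (y := b - 1) (by omega) (by omega)
      unfold S t at this
      rw [show a - 1 + 1 = a by omega, show b - 1 + 1 = b by omega,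
        show a - 1 + (b - 1) + 1 = a + b - 1 by omega] at this
      exact this
    · have h1 := (mult_iff hs hd (N := N) (by omega)).1 h
      exact (mult_iff hs hd hj).2 (down hs hd hj hN h1)
    · exact up_t hs hd hJ h
  · constructor
    · intro h
      refine tendsto_const_nhds.congr' ?_
      filter_upwards [eventually_ge_atTop 4] with m hm
      rw [h m hm]
      have : (4 : ℝ) ≤ m := by exact_mod_cast hm
      have : (m : ℝ) - 1 ≠ 0 := by linarith
      field_simp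
      ring
    · intro h j hj
      by_contra hne
      obtain ⟨c, hc, M, hM⟩ := F j hj hne
      have := le_of_tendsto h (by
        filter_upwards [eventually_ge_atTop M] with m hm
        exact hM m hm)
      linarith
  · constructor
    · intro h
      refine Eventually.frequently ?_
      filter_upwards [eventually_ge_atTop 4] with m hm
      exact h m hm
    · intro h j hj
      obtain ⟨m, h1, h2⟩ := (h.and_eventually (eventually_ge_atTop (j + 2))).exists
      exact D j m hj h2 h1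

end Pool.Agent.Results.MP_a4d830_co.OneValueDecides
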